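import Pool.Agent.NPG.Stmts

/-!
# Squad NPG, row COV: a locally finite closed cover with locally constant centres
-/

set_option autoImplicit false

open Set Topology

namespace Pool.Agent.NPG.H6

open Pool.Agent.LSG

theorem cov (sto : StoStmt) : CovStmt := by
  classical
  intro Q I _ _ U hUo hUc
  obtain ⟨ψ, h0, hU, huniq, hlf, hex⟩ := sto Q I U hUo hUc
  let s : ℕ → Q → ℝ := fun c q => ∑ᶠ i, ψ c i q
  have hs_def : ∀ c q, s c q = ∑ᶠ i, ψ c i q := fun c q => rfl
  have hlfc : ∀ c, LocallyFinite fun i => Function.support (ψ c i) := by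
    intro c
    have := hlf.comp_injective (g := fun i : I => (c, i)) (fun a b h => (Prod.mk.inj h).2)
    exact this
  have hsc : ∀ c, Continuous (s c) := fun c =>
    continuous_finsum (fun i => (ψ c i).continuous) (hlfc c)
  have hs0 : ∀ c q, 0 ≤ s c q := fun c q => finsum_nonneg fun i => h0 c i q
  have hs1 : ∀ c q i, ψ c i q ≠ 0 → s c q = ψ c i q := by
    intro c q i hi
    rw [hs_def]
    apply finsum_eq_single
    intro j hj
    by_contra hne
    exact hj (huniq c j i q hne hi)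
  have hs2 : ∀ c q, s c q ≠ 0 → ∃ i, ψ c i q ≠ 0 := by
    intro c q h
    by_contra hne
    apply h
    rw [hs_def]
    apply finsum_eq_zero_of_forall_eq_zero
    intro i
    by_contra hi
    exact hne ⟨i, hi⟩
  have hslf : LocallyFinite fun c => Function.support (s c) := by
    intro q
    obtain ⟨W, hW, hfin⟩ := hlf q
    refine ⟨W, hW, (hfin.image Prod.fst).subset ?_⟩
    rintro c ⟨x, hx, hxW⟩
    obtain ⟨i, hi⟩ := hs2 c x hx
    exact ⟨(c, i), ⟨x, hi, hxW⟩, rfl⟩
  have hpos : ∀ q, ∃ c, 0 < s c q := by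
    intro q
    obtain ⟨c, i, hi⟩ := hex q
    refine ⟨c, ?_⟩
    rw [hs1 c q i hi]
    exact lt_of_le_of_ne (h0 c i q) (Ne.symm hi)
  let D : ℕ → Set Q := fun c => {q | ∀ c', s c' q ≤ s c q}
  have hDpos : ∀ c, ∀ q ∈ D c, 0 < s c q := by
    intro c q hq
    obtain ⟨c', hc'⟩ := hpos q
    exact lt_of_lt_of_le hc' (hq c')
  have hDex : ∀ c, ∀ q ∈ D c, ∃ i, ψ c i q ≠ 0 := fun c q hq =>
    hs2 c q (ne_of_gt (hDpos c q hq))
  let ξ : ℕ → Q → I := fun c q =>
    if h : ∃ i, ψ c i q ≠ 0 then h.choose else (hUc q).choose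
  have hξ : ∀ c q, (∃ i, ψ c i q ≠ 0) → ψ c (ξ c q) q ≠ 0 := by
    intro c q h
    have e : ξ c q = h.choose := dif_pos h
    rw [e]
    exact h.choose_spec
  refine ⟨D, ξ, ?_, ?_, ?_, ?_, ?_⟩
  · intro c
    have e : D c = ⋂ c', {q | s c' q ≤ s c q} := by
      ext q
      rw [Set.mem_iInter]
      exact Iff.rfl
    rw [e]
    exact isClosed_iInter fun c' => isClosed_le (hsc c') (hsc c)
  · exact hslf.subset fun c q hq => ne_of_gt (hDpos c q hq)
  · intro q
    have hfin : {c | q ∈ Function.support (s c)}.Finite := hslf.point_finite q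
    obtain ⟨c₁, hc₁⟩ := hpos q
    obtain ⟨c, hc, hmax⟩ := Set.exists_max_image {c | q ∈ Function.support (s c)}
      (fun c => s c q) hfin ⟨c₁, ne_of_gt hc₁⟩
    refine ⟨c, fun c' => ?_⟩
    by_cases hc' : s c' q = 0
    · rw [hc']
      exact hs0 c q
    · exact hmax c' hc'
  · intro c q hq
    exact hU c _ q (hξ c q (hDex c q hq))
  · intro c q hq
    have h1 : ψ c (ξ c q) q ≠ 0 := hξ c q (hDex c q hq)
    have h2 : ∀ᶠ q' in nhds q, ψ c (ξ c q) q' ≠ 0 :=
      (ψ c (ξ c q)).continuous.continuousAt.eventually_ne h1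
    filter_upwards [h2] with q' hq' _
    exact huniq c _ _ q' (hξ c q' ⟨_, hq'⟩) hq'

end Pool.Agent.NPG.H6
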